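import Pool.Agent.Helper87.LU.MainU
import Pool.Agent.Helper37.LFU.FINU
import Pool.Agent.Helper37.LFU.FOU1
import Pool.Agent.Helper37.LFU.QAB
import Pool.Agent.Helper92.LFU.BLKU
import Pool.Agent.Helper73.LF.Final
import Pool.Agent.Helper87.MD.Asm

/-!
# Form U, assembly (MP_c307ca_nt)
-/

set_option autoImplicit false

namespace Pool.Agent.Helper87.LU

open Pool.Agent.Helper92.LFU Pool.Agent.Helper73.LF

/-- the case `A + α < 1` -/
theorem stmtG : StmtG :=
  Pool.Agent.Helper37.LFU.finu gsch Pool.Agent.Helper34.MD.mdCNT Pool.Agent.Helper37.LFU.fou1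
    (blku_of gsum) glog

/-- The main theorem. -/
theorem final : MainU := mainU Pool.Agent.Helper87.MD.main stmtG

end Pool.Agent.Helper87.LU
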