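import Pool.Agent.Helper92.LFU.Goals

/-!
# The common form U from its two cases (MP_c307ca_nt)
-/

set_option autoImplicit false

open Finset

namespace Pool.Agent.Helper87.LU

open Pool.Agent.Helper98.Lang Pool.Agent.Helper73.LF Pool.Agent.Helper92.LFU

/-- `x 0` is irrational. -/
theorem irr_of_indep (x : Fin 1 → ℝ)
    (h : ∀ (u : ℤ) (v : Fin 1 → ℤ), (u : ℝ) + ∑ i, (v i : ℝ) * x i = 0 → u = 0 ∧ v = 0) :
    Irrational (x 0) := by
  rintro ⟨r, hr⟩
  have hden : (r.den : ℝ) ≠ 0 := by exact_mod_cast r.den_ne_zero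
  have h1 := h (-r.num) (fun _ => (r.den : ℤ)) (by
    rw [Fin.sum_univ_one, ← hr]
    push_cast
    rw [mul_comm, ← Rat.cast_natCast, ← Rat.cast_mul, Rat.mul_den_eq_num]
    push_cast
    ring)
  have h2 := congrFun h1.2 0
  simp only [Pi.zero_apply, Nat.cast_eq_zero] at h2
  exact r.den_ne_zero (by exact_mod_cast h2)

theorem mainU (hMD : Pool.Agent.Helper87.MD.MainStmt) (hG : StmtG) : MainU := by
  intro ε ε' hε hε'0 hε'
  obtain ⟨C1, hC1⟩ := hMD ε ε' hε hε'0 hε'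
  obtain ⟨C2, hC2⟩ := hG ε hε
  have hl2 : 0 < Real.log 2 := Real.log_pos (by norm_num)
  have hL : 0 < Real.log 2 ^ (ε - ε') := Real.rpow_pos_of_pos hl2 _
  refine ⟨|C1| + |C2| / Real.log 2 ^ (ε - ε'), ?_⟩
  intro m x hm halg hind c A α hc hα hor
  have key1 : ∀ (K Q : ℝ), 0 ≤ K → 2 ≤ Q → C1 * c * K / Real.log Q ^ ε' ≤
      (|C1| + |C2| / Real.log 2 ^ (ε - ε')) * c * K / Real.log Q ^ ε' := by
    intro K Q hK hQ
    have hlQ : 0 < Real.log Q := Real.log_pos (by linarith)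
    have h1 : 0 < Real.log Q ^ ε' := Real.rpow_pos_of_pos hlQ _
    have h2 : 0 ≤ |C2| / Real.log 2 ^ (ε - ε') := by positivity
    have h3 : C1 ≤ |C1| + |C2| / Real.log 2 ^ (ε - ε') := by
      linarith [le_abs_self C1]
    gcongr
  have key2 : ∀ (K Q : ℝ), 0 ≤ K → 2 ≤ Q → C2 * c * K / Real.log Q ^ ε ≤
      (|C1| + |C2| / Real.log 2 ^ (ε - ε')) * c * K / Real.log Q ^ ε' := by
    intro K Q hK hQ
    have hlQ : 0 < Real.log Q := Real.log_pos (by linarith)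
    have h1 : 0 < Real.log Q ^ ε' := Real.rpow_pos_of_pos hlQ _
    have h1' : 0 < Real.log Q ^ ε := Real.rpow_pos_of_pos hlQ _
    have h4 : Real.log 2 ^ (ε - ε') ≤ Real.log Q ^ (ε - ε') :=
      Real.rpow_le_rpow hl2.le (Real.log_le_log (by norm_num) hQ) (by linarith)
    have h5 : Real.log Q ^ ε = Real.log Q ^ (ε - ε') * Real.log Q ^ ε' := by
      rw [← Real.rpow_add hlQ]; ring_nf
    calc C2 * c * K / Real.log Q ^ ε ≤ |C2| * c * K / Real.log Q ^ ε := by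
          have := le_abs_self C2
          gcongr
      _ = |C2| * c * K / (Real.log Q ^ (ε - ε') * Real.log Q ^ ε') := by rw [h5]
      _ ≤ |C2| * c * K / (Real.log 2 ^ (ε - ε') * Real.log Q ^ ε') := by
          gcongr
      _ = (|C2| / Real.log 2 ^ (ε - ε')) * c * K / Real.log Q ^ ε' := by
          field_simp
      _ ≤ _ := by
          have : |C2| / Real.log 2 ^ (ε - ε') ≤ |C1| + |C2| / Real.log 2 ^ (ε - ε') := by
            linarith [abs_nonneg C1]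
          gcongr
  by_cases hA : A + α < 1
  · obtain ⟨N0, hN0⟩ := hC2 m x hm halg hind c A α hc hA
    refine ⟨N0, ?_⟩
    intro M d s hN hs hsK Q hQ
    exact (hN0 M d s hN hs hsK Q hQ).trans (key2 _ Q (by positivity) hQ)
  · have hm1 : m = 1 := hor.resolve_right hA
    subst hm1
    obtain ⟨N0, hN0⟩ := hC1 (x 0) (halg 0) (irr_of_indep x hind) c A α hc hα
    refine ⟨N0, ?_⟩
    intro M d s hN hs hsK Q hQ
    have h1 := hN0 M d s (by simpa using hN) hs (by simpa using hsK) Q hQ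
    have hfin : ({y : ℕ × ℕ | 1 ≤ y.1 ∧ y.1 ≤ M ∧ y.2 < d ∧ ∃ (p : ℤ) (q : ℕ), Q ≤ q ∧
        (q : ℝ) ≤ ((M : ℝ) * d) ^ A ∧
        |((s : ℝ) * y.1 * x 0 + y.2) / d - (p : ℝ) / (q : ℝ)|
          ≤ c / ((q : ℝ) ^ 2 * Real.log (q : ℝ) ^ (1 + ε))}).Finite := by
      refine ((Finset.Icc 1 M ×ˢ Finset.range d).finite_toSet).subset ?_
      rintro ⟨a, b⟩ ⟨h1, h2, h3, -⟩
      exact Finset.mem_coe.2 (Finset.mem_product.2 ⟨Finset.mem_Icc.2 ⟨h1, h2⟩,
        Finset.mem_range.2 h3⟩)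
    have hinj : Function.Injective (fun y : (Fin 1 → ℕ) × ℕ => (y.1 0, y.2)) := by
      rintro ⟨a, b⟩ ⟨a', b'⟩ h
      simp only [Prod.mk.injEq] at h
      refine Prod.ext ?_ h.2
      funext i
      rw [Subsingleton.elim i 0]
      exact h.1
    refine le_trans ?_ ((h1.trans (key1 _ Q (by positivity) hQ)).trans (le_of_eq (by
      rw [pow_one])))
    rw [← Set.ncard_image_of_injective _ hinj]
    refine Nat.cast_le.2 (Set.ncard_le_ncard ?_ hfin)
    rintro _ ⟨⟨a, b⟩, ⟨h2, h3, p, q, h4, h5, h6⟩, rfl⟩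
    refine ⟨(h2 0).1, (h2 0).2, h3, p, q, h4, by simpa using h5, ?_⟩
    have h7 : (s : ℝ) * ∑ i : Fin 1, (a i : ℝ) * x i = (s : ℝ) * a 0 * x 0 := by
      rw [Fin.sum_univ_one]; ring
    simp only [h7] at h6
    exact h6

end Pool.Agent.Helper87.LU
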