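import Pool.Agent.Helper87.LU.MainUB
import Pool.Agent.Helper45.LFU.UB
import Pool.Agent.Helper92.LFU.BLKU
import Pool.Agent.Helper73.LF.Final
import Pool.Agent.Helper87.MD.Asm

/-!
# Form UB, assembly (MP_c307ca_nt)
-/

set_option autoImplicit false

namespace Pool.Agent.Helper87.LU

open Pool.Agent.Helper92.LFU Pool.Agent.Helper73.LF

theorem stmtGB_of (hF : Pool.Agent.Helper45.LFU.GFou1B) : StmtGB := by
  intro e he
  obtain ⟨C, hC⟩ := Pool.Agent.Helper45.LFU.finub gsch Pool.Agent.Helper34.MD.mdCNT hF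
    (blku_of gsum) glog e he
  refine ⟨C, fun m x hm ha hi c A α hc hA => ?_⟩
  obtain ⟨N0, h⟩ := hC m x hm ha hi c A α hc hA
  exact ⟨N0, fun M d s hN hs hsK β Q hQ => h β M d s hN hs hsK Q hQ⟩

/-- The main theorem, from the Fourier bound. -/
theorem finalB_of (hF : Pool.Agent.Helper45.LFU.GFou1B) : MainUB :=
  mainUB Pool.Agent.Helper87.MD.main (stmtGB_of hF)

end Pool.Agent.Helper87.LU
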