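import Pool.Agent.Helper92.UM.Defs
import Pool.Agent.Helper87.MD.Goals

/-!
# The final statement of MP_c307ca_nt.MultiplesAndDivision contains its former statement
-/

set_option autoImplicit false

open Finset

namespace Pool.Agent.Helper87.LU

theorem contains_md (h : Pool.Agent.Helper92.UM.MainUM) : Pool.Agent.Helper87.MD.MainStmt := by
  intro ε ε' hε hε'0 hε'
  obtain ⟨C, hC⟩ := h ε ε' hε hε'0 hε'
  refine ⟨C, ?_⟩
  intro ξ halg hirr c A α hc hα
  obtain ⟨N0, hN0⟩ := hC 1 (fun _ => ξ) le_rfl (fun _ => halg) (by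
    intro u v huv
    rw [Fin.sum_univ_one] at huv
    have hv : v 0 = 0 := by
      by_contra hv
      have hv' : (v 0 : ℝ) ≠ 0 := by exact_mod_cast hv
      refine hirr ⟨(-(u : ℚ)) / (v 0 : ℚ), ?_⟩
      push_cast
      rw [div_eq_iff hv']
      linarith
    refine ⟨?_, ?_⟩
    · rw [hv] at huv
      simpa using huv
    · funext i
      rw [Subsingleton.elim i 0, hv]; rfl) c A α hc hα
  refine ⟨N0, ?_⟩
  intro M d s hN hs hsK Q hQ
  have h1 := hN0 (fun _ => M) d s 0 (Or.inl ⟨rfl, rfl⟩) (by simpa using hN) hs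
    (by simpa using hsK) Q hQ
  simp only [Finset.univ_unique, Finset.prod_singleton, Finset.sum_singleton, zero_add] at h1
  refine le_trans (Nat.cast_le.2 ?_) h1
  have hinj : Function.Injective (fun y : ℕ × ℕ => ((fun _ : Fin 1 => y.1), y.2)) := by
    rintro ⟨a, b⟩ ⟨a', b'⟩ h
    simp only [Prod.mk.injEq] at h
    exact Prod.ext (congrFun h.1 0) h.2
  rw [← Set.ncard_image_of_injective _ hinj]
  refine Set.ncard_le_ncard ?_ ?_
  · rintro _ ⟨⟨a, b⟩, ⟨h2, h3, h4, p, q, h5, h6, h7⟩, rfl⟩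
    refine ⟨fun _ => ⟨h2, h3⟩, h4, p, q, h5, h6, ?_⟩
    have e : (s : ℝ) * ((a : ℝ) * ξ) = (s : ℝ) * a * ξ := by ring
    simp only [e]
    exact h7
  · refine (((Fintype.piFinset fun _ : Fin 1 => Icc 1 M) ×ˢ range d).finite_toSet).subset ?_
    rintro ⟨a, b⟩ ⟨h2, h3, -⟩
    exact Finset.mem_coe.2 (Finset.mem_product.2 ⟨Fintype.mem_piFinset.2 fun i =>
      Finset.mem_Icc.2 (h2 i), Finset.mem_range.2 h3⟩)

end Pool.Agent.Helper87.LU
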