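import Pool.Agent.Helper87.LU.AsmB
import Pool.Agent.Helper45.LFU.FOUB

/-!
# Form UB, final theorem (MP_c307ca_nt)
-/

set_option autoImplicit false

namespace Pool.Agent.Helper87.LU

/-- The main theorem. -/
theorem finalB : MainUB := finalB_of Pool.Agent.Helper45.LFU.fou1B

end Pool.Agent.Helper87.LU
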