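import Pool.Agent.Helper92.LFU.Goals

/-!
# Form UB: the common form U with a real shift `β` (MP_c307ca_nt)
-/

set_option autoImplicit false

open Finset

namespace Pool.Agent.Helper87.LU

open Pool.Agent.Helper98.Lang Pool.Agent.Helper73.LF Pool.Agent.Helper92.LFU

/-- the case `A + α < 1`, with a shift -/
def StmtGB : Prop := ∀ e : ℝ, 0 < e → ∃ C : ℝ, ∀ (m : ℕ) (x : Fin m → ℝ), 1 ≤ m →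
  (∀ i, IsAlgebraic ℚ (x i)) → Indep x → ∀ c A α : ℝ, 0 < c → A + α < 1 →
  ∃ N0 : ℕ, ∀ M d s : ℕ, N0 ≤ M ^ m * d → 1 ≤ s → (s : ℝ) ≤ ((M : ℝ) ^ m * d) ^ α →
    ∀ (β : ℝ) (Q : ℝ), 2 ≤ Q →
    ({y : (Fin m → ℕ) × ℕ | (∀ i, 1 ≤ y.1 i ∧ y.1 i ≤ M) ∧ y.2 < d ∧ ∃ (p : ℤ) (q : ℕ), Q ≤ q ∧
        (q : ℝ) ≤ ((M : ℝ) ^ m * d) ^ A ∧
        |β + ((s : ℝ) * ∑ i, (y.1 i : ℝ) * x i + y.2) / d - (p : ℝ) / (q : ℝ)|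
          ≤ c / ((q : ℝ) ^ 2 * Real.log (q : ℝ) ^ (1 + e))}.ncard : ℝ)
      ≤ C * c * ((M : ℝ) ^ m * d) / Real.log Q ^ e

/-- the final statement with a shift -/
def MainUB : Prop := ∀ ε ε' : ℝ, 0 < ε → 0 ≤ ε' → ε' < ε →
  ∃ C : ℝ, ∀ (m : ℕ) (x : Fin m → ℝ), 1 ≤ m → (∀ i, IsAlgebraic ℚ (x i)) →
  (∀ (u : ℤ) (v : Fin m → ℤ), (u : ℝ) + ∑ i, (v i : ℝ) * x i = 0 → u = 0 ∧ v = 0) →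
  ∀ c A α : ℝ, 0 < c → α < 1 →
  ∃ N0 : ℕ, ∀ (M d s : ℕ) (β : ℝ), (m = 1 ∧ β = 0) ∨ A + α < 1 → N0 ≤ M ^ m * d → 1 ≤ s →
    (s : ℝ) ≤ ((M : ℝ) ^ m * d) ^ α → ∀ Q : ℝ, 2 ≤ Q →
    ({y : (Fin m → ℕ) × ℕ | (∀ i, 1 ≤ y.1 i ∧ y.1 i ≤ M) ∧ y.2 < d ∧ ∃ (p : ℤ) (q : ℕ), Q ≤ q ∧
        (q : ℝ) ≤ ((M : ℝ) ^ m * d) ^ A ∧
        |β + ((s : ℝ) * ∑ i, (y.1 i : ℝ) * x i + y.2) / d - (p : ℝ) / (q : ℝ)|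
          ≤ c / ((q : ℝ) ^ 2 * Real.log (q : ℝ) ^ (1 + ε))}.ncard : ℝ)
      ≤ C * c * ((M : ℝ) ^ m * d) / Real.log Q ^ ε'

end Pool.Agent.Helper87.LU
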